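import Pool.Agent.Work.MP_9c254e_an.Main

/-!
# Uniqueness for the thin-film free-boundary problem with absorption

Two solutions of `u_t + (1/2) u Δ²(u²) + ∇u · ∇Δ(u²) + 1/2 = 0` which coincide at a time `t₀ > 0`
coincide afterwards, on their common time interval.  The same holds for `t₀ = 0` if both solutions
are regular up to `t = 0`.
-/

open Set

namespace Pool.Agent.Results.MP_9c254e_an.Uniqueness

open Pool.Agent.TF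

/-- **Uniqueness.**  Let `u₁` in the domains `Ω₁(t)`, `0 ≤ t ≤ T₁`, and `u₂` in the domains `Ω₂(t)`,
`0 ≤ t ≤ T₂`, be solutions of the free-boundary problem (`IsClassical`), which coincide at the time
`t₀`.  If `t₀ = 0` assume that both are regular up to `t = 0` (`RegularAtZero`).  Then
`Ω₁(t) = Ω₂(t)` and `u₁(t) = u₂(t)` for `t₀ ≤ t ≤ min T₁ T₂`. -/
theorem result {N : ℕ} (hN : 0 < N) {T₁ T₂ : ℝ} {Ω₁ Ω₂ : ℝ → Set (E N)} {u₁ u₂ : ℝ → E N → ℝ}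
    (h₁ : IsClassical T₁ Ω₁ u₁) (h₂ : IsClassical T₂ Ω₂ u₂) {t₀ : ℝ} (h₀ : 0 ≤ t₀)
    (hr : t₀ = 0 → RegularAtZero T₁ Ω₁ u₁ ∧ RegularAtZero T₂ Ω₂ u₂)
    (hΩ : Ω₁ t₀ = Ω₂ t₀) (hu : ∀ x ∈ Ω₁ t₀, u₁ t₀ x = u₂ t₀ x) :
    ∀ t ∈ Icc t₀ (min T₁ T₂), Ω₁ t = Ω₂ t ∧ ∀ x ∈ Ω₁ t, u₁ t x = u₂ t x :=
  IsClassical.unique hN h₁ h₂ h₀ hr hΩ hu

end Pool.Agent.Results.MP_9c254e_an.Uniqueness
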